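import Pool.Agent.H326R2.Pi.Stmts
import Pool.Agent.H1R2.PiM.Seg

/-! # Task T14 (helper1): the bound of the integrand on the path `1 + i → (17+7i)/14 → 1`. -/

set_option linter.style.longLine false

open Pool.Agent.H326R2.Pi

namespace Pool.Agent.H1R2.PiM

/-- bound of the square of the base -/
noncomputable def rho : ℝ := 425739 / 200000000000

theorem rho_le : rho ≤ Real.exp (-6.53) ^ 2 := by
  have h1 : Real.exp (-6.53) ^ 2 = (Real.exp 13.06)⁻¹ := by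
    rw [← Real.exp_nat_mul, ← Real.exp_neg]
    congr 1
    norm_num
  have h2 : Real.exp 13.06 = Real.exp 1 ^ 13 * Real.exp 0.06 := by
    rw [← Real.exp_nat_mul, ← Real.exp_add]
    congr 1
    norm_num
  have h3 : Real.exp 0.06 ≤ 1.0618365466 := by
    have := Real.exp_bound' (x := 0.06) (by norm_num) (by norm_num) (n := 6) (by norm_num)
    refine this.trans ?_
    simp only [Finset.sum_range_succ, Finset.sum_range_zero, Nat.factorial]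
    norm_num
  have h4 : Real.exp 1 ^ 13 ≤ 2.7182818286 ^ 13 :=
    pow_le_pow_left₀ (Real.exp_pos _).le Real.exp_one_lt_d9.le 13
  have h5 : Real.exp 13.06 ≤ 2.7182818286 ^ 13 * 1.0618365466 := by
    rw [h2]
    exact mul_le_mul h4 h3 (Real.exp_pos _).le (by norm_num)
  rw [h1, rho, le_inv_comm₀ (by norm_num) (Real.exp_pos _)]
  refine h5.trans ?_
  norm_num

/-- the inequality wanted at `x + i y` -/
def Good (x y : ℝ) : Prop :=
  (((x - 1) ^ 2 + (y - 1) ^ 2) * ((x - 1) ^ 2 + (y + 1) ^ 2)) ^ 3 *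
    (((x - 1) ^ 2 + y ^ 2) * ((x - 2) ^ 2 + y ^ 2)) ^ 5 ≤
  rho * ((x ^ 2 + y ^ 2) * ((x ^ 2 + y ^ 2 + 2) ^ 2 - 8 * x ^ 2)) ^ 4

theorem nsq (w : ℂ) : ‖w‖ ^ 2 = w.re ^ 2 + w.im ^ 2 := by
  rw [← Complex.normSq_eq_norm_sq, Complex.normSq_apply]; ring

theorem Fi_le (n : ℕ) (x y : ℝ) (hx : 1 ≤ x) (hy : y = 0 → x = 1) (h : Good x y) :
    0 < ((x : ℂ) + y * Complex.I).re ∧ ((x : ℂ) + y * Complex.I) ^ 2 ≠ 2 ∧
      ‖Fi n ((x : ℂ) + y * Complex.I)‖ ≤ 2 * Real.exp (-(6.53 * n)) := by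
  obtain ⟨z, hz⟩ : ∃ z : ℂ, z = x + y * Complex.I := ⟨_, rfl⟩
  have hre : z.re = x := by rw [hz]; simp
  have him : z.im = y := by rw [hz]; simp
  have hre2 : (z ^ 2).re = x ^ 2 - y ^ 2 := by
    rw [sq, Complex.mul_re, hre, him]; ring
  have him2 : (z ^ 2).im = 2 * x * y := by
    rw [sq, Complex.mul_im, hre, him]; ring
  have hz2 : z ^ 2 ≠ 2 := by
    intro h0
    have h1 := congrArg Complex.im h0
    have h2 := congrArg Complex.re h0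
    rw [him2] at h1
    rw [hre2] at h2
    simp at h1 h2
    have hx0 : x ≠ 0 := by linarith
    have hy0 : y = 0 := h1.resolve_left hx0
    have hx1 := hy hy0
    rw [hy0, hx1] at h2
    norm_num at h2
  rw [← hz]
  refine ⟨by rw [hre]; linarith, hz2, ?_⟩
  have hE : ‖z‖ ^ 2 = x ^ 2 + y ^ 2 := by rw [nsq, hre, him]
  have hF : ‖z ^ 2 - 2‖ ^ 2 = (x ^ 2 + y ^ 2 + 2) ^ 2 - 8 * x ^ 2 := by
    rw [nsq, Complex.sub_re, Complex.sub_im, hre2, him2]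
    simp
    ring
  have hP : ‖z ^ 2 - 2 * z + 2‖ ^ 2 = ((x - 1) ^ 2 + (y - 1) ^ 2) * ((x - 1) ^ 2 + (y + 1) ^ 2) := by
    rw [nsq, Complex.add_re, Complex.add_im, Complex.sub_re, Complex.sub_im, hre2, him2]
    simp [hre, him]
    ring
  have hQ : ‖z ^ 2 - 3 * z + 2‖ ^ 2 = ((x - 1) ^ 2 + y ^ 2) * ((x - 2) ^ 2 + y ^ 2) := by
    rw [nsq, Complex.add_re, Complex.add_im, Complex.sub_re, Complex.sub_im, hre2, him2]
    simp [hre, him]
    ring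
  have hz1 : 1 ≤ ‖z‖ := by
    have := Complex.abs_re_le_norm z
    rw [hre, abs_of_nonneg (by linarith)] at this
    linarith
  have hz0 : 0 < ‖z‖ := by linarith
  have hd0 : 0 < ‖z ^ 2 - 2‖ := norm_pos_iff.2 (sub_ne_zero.2 hz2)
  unfold Good at h
  rw [← hF, ← hE, ← hP, ← hQ] at h
  have hR : ‖z ^ 2 - 2 * z + 2‖ ^ 3 * ‖z ^ 2 - 3 * z + 2‖ ^ 5 / (‖z‖ ^ 4 * ‖z ^ 2 - 2‖ ^ 4) ≤
      Real.exp (-6.53) := by
    refine le_of_sq_le_sq ?_ (Real.exp_pos _).le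
    refine le_trans ?_ rho_le
    rw [div_pow, div_le_iff₀ (by positivity)]
    calc _ = (‖z ^ 2 - 2 * z + 2‖ ^ 2) ^ 3 * (‖z ^ 2 - 3 * z + 2‖ ^ 2) ^ 5 := by ring
      _ ≤ _ := h
      _ = _ := by ring
  have hFi : ‖Fi n z‖ =
      (‖z ^ 2 - 2 * z + 2‖ ^ 3 * ‖z ^ 2 - 3 * z + 2‖ ^ 5 / (‖z‖ ^ 4 * ‖z ^ 2 - 2‖ ^ 4)) ^ n / ‖z‖ := by
    unfold Fi
    rw [norm_div, norm_mul, norm_mul, norm_pow, norm_pow, norm_pow, norm_pow, div_pow, mul_pow,
      mul_pow, ← pow_mul, ← pow_mul, ← pow_mul, ← pow_mul, div_div, pow_succ]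
    congr 1
    ring
  rw [hFi]
  have h0 : 0 ≤ ‖z ^ 2 - 2 * z + 2‖ ^ 3 * ‖z ^ 2 - 3 * z + 2‖ ^ 5 / (‖z‖ ^ 4 * ‖z ^ 2 - 2‖ ^ 4) := by
    positivity
  have h1 := pow_le_pow_left₀ h0 hR n
  have h2 : Real.exp (-6.53) ^ n = Real.exp (-(6.53 * n)) := by
    rw [← Real.exp_nat_mul]
    congr 1
    ring
  rw [h2] at h1
  have h3 := Real.exp_pos (-(6.53 * (n : ℝ)))
  calc _ ≤ (‖z ^ 2 - 2 * z + 2‖ ^ 3 * ‖z ^ 2 - 3 * z + 2‖ ^ 5 / (‖z‖ ^ 4 * ‖z ^ 2 - 2‖ ^ 4)) ^ n :=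
        div_le_self (pow_nonneg h0 n) hz1
    _ ≤ _ := h1
    _ ≤ _ := by linarith

/-- piece 0 -/
theorem bd0 (a b : ℝ) (ha : 0 ≤ a) (hb : 0 ≤ b) (hab : a + b = 1) :
    Good ((14*a+17*b)/14) ((14*a+7*b)/14) := by
  have key := pc0 a b ha hb
  have ea : b = 1 - a := by linarith
  rw [hab, one_pow, mul_one] at key
  have e1 : (((14*a+17*b)/14) - 1) ^ 2 + (((14*a+7*b)/14) - 1) ^ 2 = (58*b^2) / 196 := by rw [ea]; ring
  have e2 : (((14*a+17*b)/14) - 1) ^ 2 + (((14*a+7*b)/14) + 1) ^ 2 = (784*a^2 + 1176*(a*b) + 450*b^2) / 196 := by rw [ea]; ring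
  have e3 : (((14*a+17*b)/14) - 1) ^ 2 + ((14*a+7*b)/14) ^ 2 = (196*a^2 + 196*(a*b) + 58*b^2) / 196 := by rw [ea]; ring
  have e4 : (((14*a+17*b)/14) - 2) ^ 2 + ((14*a+7*b)/14) ^ 2 = (392*a^2 + 504*(a*b) + 170*b^2) / 196 := by rw [ea]; ring
  have e5 : ((14*a+17*b)/14) ^ 2 + ((14*a+7*b)/14) ^ 2 = (392*a^2 + 672*(a*b) + 338*b^2) / 196 := by rw [ea]; ring
  have e6 : ((392*a^2 + 672*(a*b) + 338*b^2) / 196 + 2) ^ 2 - 8 * ((14*a+17*b)/14) ^ 2 = (307328*(a^4*b^0) + 921984*(a^3*b^1) + 1011360*(a^2*b^2) + 473088*(a^1*b^3) + 79748*(a^0*b^4)) / 38416 := by rw [ea]; ring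
  unfold Good
  rw [e1, e2, e3, e4, e5, e6, rho]
  generalize 196*a^2 + 196*(a*b) + 58*b^2 = A3 at *
  generalize 58*b^2 = A1 at *
  generalize 784*a^2 + 1176*(a*b) + 450*b^2 = A2 at *
  generalize 392*a^2 + 504*(a*b) + 170*b^2 = A4 at *
  generalize 392*a^2 + 672*(a*b) + 338*b^2 = A5 at *
  generalize 307328*(a^4*b^0) + 921984*(a^3*b^1) + 1011360*(a^2*b^2) + 473088*(a^1*b^3) + 79748*(a^0*b^4) = A6 at *
  have h1 : (A1 / 196 * (A2 / 196)) ^ 3 * (A3 / 196 * (A4 / 196)) ^ 5 = (A1 * A2) ^ 3 * (A3 * A4) ^ 5 / 14^32 := by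
    ring
  have h2 : (425739 / 200000000000 : ℝ) * (A5 / 196 * (A6 / 38416)) ^ 4 = 425739 * 14^8 * (A5 * A6) ^ 4 / (200000000000 * 14^32) := by
    ring
  rw [h1, h2, div_le_div_iff₀ (by norm_num) (by norm_num)]
  nlinarith [key]

/-- piece 1 -/
theorem bd1 (a b : ℝ) (ha : 0 ≤ a) (hb : 0 ≤ b) (hab : a + b = 1) :
    Good ((272*a+269*b)/224) ((112*a+105*b)/224) := by
  have key := pc1 a b ha hb
  have ea : b = 1 - a := by linarith
  rw [hab, one_pow, mul_one] at key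
  have e1 : (((272*a+269*b)/224) - 1) ^ 2 + (((112*a+105*b)/224) - 1) ^ 2 = (14848*a^2 + 30976*(a*b) + 16186*b^2) / 50176 := by rw [ea]; ring
  have e2 : (((272*a+269*b)/224) - 1) ^ 2 + (((112*a+105*b)/224) + 1) ^ 2 = (115200*a^2 + 225408*(a*b) + 110266*b^2) / 50176 := by rw [ea]; ring
  have e3 : (((272*a+269*b)/224) - 1) ^ 2 + ((112*a+105*b)/224) ^ 2 = (14848*a^2 + 27840*(a*b) + 13050*b^2) / 50176 := by rw [ea]; ring
  have e4 : (((272*a+269*b)/224) - 2) ^ 2 + ((112*a+105*b)/224) ^ 2 = (43520*a^2 + 86528*(a*b) + 43066*b^2) / 50176 := by rw [ea]; ring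
  have e5 : ((272*a+269*b)/224) ^ 2 + ((112*a+105*b)/224) ^ 2 = (86528*a^2 + 169856*(a*b) + 83386*b^2) / 50176 := by rw [ea]; ring
  have e6 : ((86528*a^2 + 169856*(a*b) + 83386*b^2) / 50176 + 2) ^ 2 - 8 * ((272*a+269*b)/224) ^ 2 = (5226364928*(a^4*b^0) + 20364525568*(a^3*b^1) + 29763692544*(a^2*b^2) + 19338896896*(a^1*b^3) + 4713368356*(a^0*b^4)) / 2517630976 := by rw [ea]; ring
  unfold Good
  rw [e1, e2, e3, e4, e5, e6, rho]
  generalize 14848*a^2 + 30976*(a*b) + 16186*b^2 = A1 at *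
  generalize 115200*a^2 + 225408*(a*b) + 110266*b^2 = A2 at *
  generalize 14848*a^2 + 27840*(a*b) + 13050*b^2 = A3 at *
  generalize 43520*a^2 + 86528*(a*b) + 43066*b^2 = A4 at *
  generalize 86528*a^2 + 169856*(a*b) + 83386*b^2 = A5 at *
  generalize 5226364928*(a^4*b^0) + 20364525568*(a^3*b^1) + 29763692544*(a^2*b^2) + 19338896896*(a^1*b^3) + 4713368356*(a^0*b^4) = A6 at *
  have h1 : (A1 / 50176 * (A2 / 50176)) ^ 3 * (A3 / 50176 * (A4 / 50176)) ^ 5 = (A1 * A2) ^ 3 * (A3 * A4) ^ 5 / 224^32 := by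
    ring
  have h2 : (425739 / 200000000000 : ℝ) * (A5 / 50176 * (A6 / 2517630976)) ^ 4 = 425739 * 224^8 * (A5 * A6) ^ 4 / (200000000000 * 224^32) := by
    ring
  rw [h1, h2, div_le_div_iff₀ (by norm_num) (by norm_num)]
  nlinarith [key]

/-- piece 2 -/
theorem bd2 (a b : ℝ) (ha : 0 ≤ a) (hb : 0 ≤ b) (hab : a + b = 1) :
    Good ((269*a+266*b)/224) ((105*a+98*b)/224) := by
  have key := pc2 a b ha hb
  have ea : b = 1 - a := by linarith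
  rw [hab, one_pow, mul_one] at key
  have e1 : (((269*a+266*b)/224) - 1) ^ 2 + (((105*a+98*b)/224) - 1) ^ 2 = (16186*a^2 + 33768*(a*b) + 17640*b^2) / 50176 := by rw [ea]; ring
  have e2 : (((269*a+266*b)/224) - 1) ^ 2 + (((105*a+98*b)/224) + 1) ^ 2 = (110266*a^2 + 215656*(a*b) + 105448*b^2) / 50176 := by rw [ea]; ring
  have e3 : (((269*a+266*b)/224) - 1) ^ 2 + ((105*a+98*b)/224) ^ 2 = (13050*a^2 + 24360*(a*b) + 11368*b^2) / 50176 := by rw [ea]; ring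
  have e4 : (((269*a+266*b)/224) - 2) ^ 2 + ((105*a+98*b)/224) ^ 2 = (43066*a^2 + 85736*(a*b) + 42728*b^2) / 50176 := by rw [ea]; ring
  have e5 : ((269*a+266*b)/224) ^ 2 + ((105*a+98*b)/224) ^ 2 = (83386*a^2 + 163688*(a*b) + 80360*b^2) / 50176 := by rw [ea]; ring
  have e6 : ((83386*a^2 + 163688*(a*b) + 80360*b^2) / 50176 + 2) ^ 2 - 8 * ((269*a+266*b)/224) ^ 2 = (4713368356*(a^4*b^0) + 18368049952*(a^3*b^1) + 26851151712*(a^2*b^2) + 17451269248*(a^1*b^3) + 4254802496*(a^0*b^4)) / 2517630976 := by rw [ea]; ring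
  unfold Good
  rw [e1, e2, e3, e4, e5, e6, rho]
  generalize 16186*a^2 + 33768*(a*b) + 17640*b^2 = A1 at *
  generalize 110266*a^2 + 215656*(a*b) + 105448*b^2 = A2 at *
  generalize 13050*a^2 + 24360*(a*b) + 11368*b^2 = A3 at *
  generalize 43066*a^2 + 85736*(a*b) + 42728*b^2 = A4 at *
  generalize 83386*a^2 + 163688*(a*b) + 80360*b^2 = A5 at *
  generalize 4713368356*(a^4*b^0) + 18368049952*(a^3*b^1) + 26851151712*(a^2*b^2) + 17451269248*(a^1*b^3) + 4254802496*(a^0*b^4) = A6 at *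
  have h1 : (A1 / 50176 * (A2 / 50176)) ^ 3 * (A3 / 50176 * (A4 / 50176)) ^ 5 = (A1 * A2) ^ 3 * (A3 * A4) ^ 5 / 224^32 := by
    ring
  have h2 : (425739 / 200000000000 : ℝ) * (A5 / 50176 * (A6 / 2517630976)) ^ 4 = 425739 * 224^8 * (A5 * A6) ^ 4 / (200000000000 * 224^32) := by
    ring
  rw [h1, h2, div_le_div_iff₀ (by norm_num) (by norm_num)]
  nlinarith [key]

/-- piece 3 -/
theorem bd3 (a b : ℝ) (ha : 0 ≤ a) (hb : 0 ≤ b) (hab : a + b = 1) :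
    Good ((133*a+130*b)/112) ((49*a+42*b)/112) := by
  have key := pc3 a b ha hb
  have ea : b = 1 - a := by linarith
  rw [hab, one_pow, mul_one] at key
  have e1 : (((133*a+130*b)/112) - 1) ^ 2 + (((49*a+42*b)/112) - 1) ^ 2 = (4410*a^2 + 9576*(a*b) + 5224*b^2) / 12544 := by rw [ea]; ring
  have e2 : (((133*a+130*b)/112) - 1) ^ 2 + (((49*a+42*b)/112) + 1) ^ 2 = (26362*a^2 + 50344*(a*b) + 24040*b^2) / 12544 := by rw [ea]; ring
  have e3 : (((133*a+130*b)/112) - 1) ^ 2 + ((49*a+42*b)/112) ^ 2 = (2842*a^2 + 4872*(a*b) + 2088*b^2) / 12544 := by rw [ea]; ring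
  have e4 : (((133*a+130*b)/112) - 2) ^ 2 + ((49*a+42*b)/112) ^ 2 = (10682*a^2 + 21224*(a*b) + 10600*b^2) / 12544 := by rw [ea]; ring
  have e5 : ((133*a+130*b)/112) ^ 2 + ((49*a+42*b)/112) ^ 2 = (20090*a^2 + 38696*(a*b) + 18664*b^2) / 12544 := by rw [ea]; ring
  have e6 : ((20090*a^2 + 38696*(a*b) + 18664*b^2) / 12544 + 2) ^ 2 - 8 * ((133*a+130*b)/112) ^ 2 = (265925156*(a^4*b^0) + 1009693216*(a^3*b^1) + 1440068448*(a^2*b^2) + 914585728*(a^1*b^3) + 218288704*(a^0*b^4)) / 157351936 := by rw [ea]; ring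
  unfold Good
  rw [e1, e2, e3, e4, e5, e6, rho]
  generalize 4410*a^2 + 9576*(a*b) + 5224*b^2 = A1 at *
  generalize 26362*a^2 + 50344*(a*b) + 24040*b^2 = A2 at *
  generalize 2842*a^2 + 4872*(a*b) + 2088*b^2 = A3 at *
  generalize 10682*a^2 + 21224*(a*b) + 10600*b^2 = A4 at *
  generalize 20090*a^2 + 38696*(a*b) + 18664*b^2 = A5 at *
  generalize 265925156*(a^4*b^0) + 1009693216*(a^3*b^1) + 1440068448*(a^2*b^2) + 914585728*(a^1*b^3) + 218288704*(a^0*b^4) = A6 at *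
  have h1 : (A1 / 12544 * (A2 / 12544)) ^ 3 * (A3 / 12544 * (A4 / 12544)) ^ 5 = (A1 * A2) ^ 3 * (A3 * A4) ^ 5 / 112^32 := by
    ring
  have h2 : (425739 / 200000000000 : ℝ) * (A5 / 12544 * (A6 / 157351936)) ^ 4 = 425739 * 112^8 * (A5 * A6) ^ 4 / (200000000000 * 112^32) := by
    ring
  rw [h1, h2, div_le_div_iff₀ (by norm_num) (by norm_num)]
  nlinarith [key]

/-- piece 4 -/
theorem bd4 (a b : ℝ) (ha : 0 ≤ a) (hb : 0 ≤ b) (hab : a + b = 1) :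
    Good ((65*a+62*b)/56) ((21*a+14*b)/56) := by
  have key := pc4 a b ha hb
  have ea : b = 1 - a := by linarith
  rw [hab, one_pow, mul_one] at key
  have e1 : (((65*a+62*b)/56) - 1) ^ 2 + (((21*a+14*b)/56) - 1) ^ 2 = (1306*a^2 + 3048*(a*b) + 1800*b^2) / 3136 := by rw [ea]; ring
  have e2 : (((65*a+62*b)/56) - 1) ^ 2 + (((21*a+14*b)/56) + 1) ^ 2 = (6010*a^2 + 10888*(a*b) + 4936*b^2) / 3136 := by rw [ea]; ring
  have e3 : (((65*a+62*b)/56) - 1) ^ 2 + ((21*a+14*b)/56) ^ 2 = (522*a^2 + 696*(a*b) + 232*b^2) / 3136 := by rw [ea]; ring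
  have e4 : (((65*a+62*b)/56) - 2) ^ 2 + ((21*a+14*b)/56) ^ 2 = (2650*a^2 + 5288*(a*b) + 2696*b^2) / 3136 := by rw [ea]; ring
  have e5 : ((65*a+62*b)/56) ^ 2 + ((21*a+14*b)/56) ^ 2 = (4666*a^2 + 8648*(a*b) + 4040*b^2) / 3136 := by rw [ea]; ring
  have e6 : ((4666*a^2 + 8648*(a*b) + 4040*b^2) / 3136 + 2) ^ 2 - 8 * ((65*a+62*b)/56) ^ 2 = (13643044*(a^4*b^0) + 49393312*(a^3*b^1) + 67832544*(a^2*b^2) + 41977984*(a^1*b^3) + 9899072*(a^0*b^4)) / 9834496 := by rw [ea]; ring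
  unfold Good
  rw [e1, e2, e3, e4, e5, e6, rho]
  generalize 1306*a^2 + 3048*(a*b) + 1800*b^2 = A1 at *
  generalize 6010*a^2 + 10888*(a*b) + 4936*b^2 = A2 at *
  generalize 522*a^2 + 696*(a*b) + 232*b^2 = A3 at *
  generalize 2650*a^2 + 5288*(a*b) + 2696*b^2 = A4 at *
  generalize 4666*a^2 + 8648*(a*b) + 4040*b^2 = A5 at *
  generalize 13643044*(a^4*b^0) + 49393312*(a^3*b^1) + 67832544*(a^2*b^2) + 41977984*(a^1*b^3) + 9899072*(a^0*b^4) = A6 at *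
  have h1 : (A1 / 3136 * (A2 / 3136)) ^ 3 * (A3 / 3136 * (A4 / 3136)) ^ 5 = (A1 * A2) ^ 3 * (A3 * A4) ^ 5 / 56^32 := by
    ring
  have h2 : (425739 / 200000000000 : ℝ) * (A5 / 3136 * (A6 / 9834496)) ^ 4 = 425739 * 56^8 * (A5 * A6) ^ 4 / (200000000000 * 56^32) := by
    ring
  rw [h1, h2, div_le_div_iff₀ (by norm_num) (by norm_num)]
  nlinarith [key]

/-- piece 5 -/
theorem bd5 (a b : ℝ) (ha : 0 ≤ a) (hb : 0 ≤ b) (hab : a + b = 1) :
    Good ((31*a+28*b)/28) ((7*a+0*b)/28) := by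
  have key := pc5 a b ha hb
  have ea : b = 1 - a := by linarith
  rw [hab, one_pow, mul_one] at key
  have e1 : (((31*a+28*b)/28) - 1) ^ 2 + (((7*a+0*b)/28) - 1) ^ 2 = (450*a^2 + 1176*(a*b) + 784*b^2) / 784 := by rw [ea]; ring
  have e2 : (((31*a+28*b)/28) - 1) ^ 2 + (((7*a+0*b)/28) + 1) ^ 2 = (1234*a^2 + 1960*(a*b) + 784*b^2) / 784 := by rw [ea]; ring
  have e3 : (((31*a+28*b)/28) - 1) ^ 2 + ((7*a+0*b)/28) ^ 2 = (58*a^2) / 784 := by rw [ea]; ring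
  have e4 : (((31*a+28*b)/28) - 2) ^ 2 + ((7*a+0*b)/28) ^ 2 = (674*a^2 + 1400*(a*b) + 784*b^2) / 784 := by rw [ea]; ring
  have e5 : ((31*a+28*b)/28) ^ 2 + ((7*a+0*b)/28) ^ 2 = (1010*a^2 + 1736*(a*b) + 784*b^2) / 784 := by rw [ea]; ring
  have e6 : ((1010*a^2 + 1736*(a*b) + 784*b^2) / 784 + 2) ^ 2 - 8 * ((31*a+28*b)/28) ^ 2 = (618692*(a^4*b^0) + 2177056*(a^3*b^1) + 3142272*(a^2*b^2) + 2195200*(a^1*b^3) + 614656*(a^0*b^4)) / 614656 := by rw [ea]; ring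
  unfold Good
  rw [e1, e2, e3, e4, e5, e6, rho]
  generalize 450*a^2 + 1176*(a*b) + 784*b^2 = A1 at *
  generalize 1234*a^2 + 1960*(a*b) + 784*b^2 = A2 at *
  generalize 58*a^2 = A3 at *
  generalize 674*a^2 + 1400*(a*b) + 784*b^2 = A4 at *
  generalize 1010*a^2 + 1736*(a*b) + 784*b^2 = A5 at *
  generalize 618692*(a^4*b^0) + 2177056*(a^3*b^1) + 3142272*(a^2*b^2) + 2195200*(a^1*b^3) + 614656*(a^0*b^4) = A6 at *
  have h1 : (A1 / 784 * (A2 / 784)) ^ 3 * (A3 / 784 * (A4 / 784)) ^ 5 = (A1 * A2) ^ 3 * (A3 * A4) ^ 5 / 28^32 := by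
    ring
  have h2 : (425739 / 200000000000 : ℝ) * (A5 / 784 * (A6 / 614656)) ^ 4 = 425739 * 28^8 * (A5 * A6) ^ 4 / (200000000000 * 28^32) := by
    ring
  rw [h1, h2, div_le_div_iff₀ (by norm_num) (by norm_num)]
  nlinarith [key]

theorem good1 (a b : ℝ) (ha : 0 ≤ a) (hb : 0 ≤ b) (hab : a + b = 1) :
    Good ((14 * a + 17 * b) / 14) ((14 * a + 7 * b) / 14) := by
  have h := bd0 a b ha hb hab
  have e1 : (14 * a + 17 * b) / 14 = (14*a+17*b)/14 := by ring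
  exact h

theorem good2 (t : ℝ) (h0 : 0 ≤ t) (h1 : t ≤ 1) : Good (17 / 14 - 3 / 14 * t) (1 / 2 - t / 2) := by
  rcases le_total t (1/16) with hh1 | hh1
  · have h := bd1 ((1/16 - t) * 16) ((t - 0) * 16) (by linarith) (by linarith) (by ring)
    convert h using 1 <;> ring
  rcases le_total t (1/8) with hh2 | hh2
  · have h := bd2 ((1/8 - t) * 16) ((t - 1/16) * 16) (by linarith) (by linarith) (by ring)
    convert h using 1 <;> ring
  rcases le_total t (1/4) with hh3 | hh3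
  · have h := bd3 ((1/4 - t) * 8) ((t - 1/8) * 8) (by linarith) (by linarith) (by ring)
    convert h using 1 <;> ring
  rcases le_total t (1/2) with hh4 | hh4
  · have h := bd4 ((1/2 - t) * 4) ((t - 1/4) * 4) (by linarith) (by linarith) (by ring)
    convert h using 1 <;> ring
  have h := bd5 ((1 - t) * 2) ((t - 1/2) * 2) (by linarith) (by linarith) (by ring)
  convert h using 1 <;> ring

/-- T14 -/
theorem s_seg : S_seg := by
  intro n z hz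
  rcases hz with hz | hz
  · obtain ⟨a, b, ha, hb, hab, rfl⟩ := hz
    have e : (a • (1 + Complex.I) + b • vv : ℂ) = (((14 * a + 17 * b) / 14 : ℝ) : ℂ) +
        (((14 * a + 7 * b) / 14 : ℝ) : ℂ) * Complex.I := by
      rw [vv]
      simp only [Complex.real_smul]
      push_cast
      ring
    rw [e]
    refine Fi_le n _ _ (by linarith) (fun h => ?_) (good1 a b ha hb hab)
    linarith
  · obtain ⟨a, b, ha, hb, hab, rfl⟩ := hz
    have ea : a = 1 - b := by linarith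
    have e : (a • vv + b • (1 : ℂ) : ℂ) = ((17 / 14 - 3 / 14 * b : ℝ) : ℂ) +
        ((1 / 2 - b / 2 : ℝ) : ℂ) * Complex.I := by
      rw [vv, ea]
      simp only [Complex.real_smul]
      push_cast
      ring
    rw [e]
    refine Fi_le n _ _ (by linarith) (fun h => ?_) (good2 b hb (by linarith))
    linarith

end Pool.Agent.H1R2.PiM
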